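import Mathlib
import Pool.Agent.Helper858.Asym
import Pool.Agent.Y300.CE.Pos

/-! Project CE (helper300): perturbation of the limit symbol, and the gain. -/

namespace Pool.Agent.Y300.CE.Asym

open Pool.Agent.Helper858.Leg Pool.Agent.Helper858.Gen Pool.Agent.Helper858.Der
  Pool.Agent.Y300.CE.Test Pool.Agent.Y300.CE.Pos Set Filter Topology
open Pool.Agent.Helper858.Test (th D_th)
open Pool.Agent.Helper858.Asym (et th_et continuous_et continuous_th xs continuous_xs xs_zero
  xs_gt sg_xs)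

noncomputable def HH (w x σ : ℝ) : ℝ :=
  w ^ 14 + ∑ n ∈ Finset.range 14, bq n * (w ^ (13 - n) * et w x σ n)

lemma Th_HH {w : ℝ} (hw : w ≠ 0) (x σ : ℝ) : Th (1 / w) x σ * w ^ 14 = HH w x σ := by
  have h : Ts (1 / w) x σ * w ^ 13 =
      ∑ n ∈ Finset.range 14, bq n * (w ^ (13 - n) * et w x σ n) := by
    unfold Ts
    rw [Finset.sum_mul]
    refine Finset.sum_congr rfl fun n hn => ?_
    rw [← th_et hw x σ n]
    have : n ≤ 13 := by
      have := Finset.mem_range.mp hn
      omega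
    have e : w ^ 13 = w ^ (13 - n) * w ^ n := by rw [← pow_add]; congr 1; omega
    rw [e]; ring
  unfold Th HH
  rw [← h]
  generalize Ts (1 / w) x σ = T
  field_simp

lemma continuous_HH : Continuous (fun p : ℝ × ℝ × ℝ => HH p.1 p.2.1 p.2.2) := by
  unfold HH
  refine Continuous.add (by fun_prop) (continuous_finsetSum _ fun n _ => ?_)
  have := continuous_et n
  fun_prop

lemma continuous_Ts : Continuous (fun p : ℝ × ℝ × ℝ => Ts p.1 p.2.1 p.2.2) := by
  unfold Ts
  exact continuous_finsetSum _ fun n _ => by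
    have := continuous_th n
    fun_prop

lemma continuous_Th : Continuous (fun p : ℝ × ℝ × ℝ => Th p.1 p.2.1 p.2.2) := by
  have := continuous_Ts
  unfold Th
  fun_prop

lemma et_zero (n : ℕ) : et 0 1 0 n = 1 := by
  induction n using Nat.twoStepInduction with
  | zero => rw [et]
  | one => rw [et]; ring
  | more n ih1 ih2 => rw [et, ih1]; ring

lemma HH_pos {w : ℝ} (h0 : 0 ≤ w) : 0 < HH w 1 0 := by
  rcases eq_or_lt_of_le h0 with h | h
  · rw [← h]
    simp only [HH, Finset.sum_range_succ, Finset.sum_range_zero, et_zero, bq, bt, dfac']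
    norm_num
  · rw [← Th_HH h.ne']
    have := Th_pos (z := 1 / w) (by positivity)
    exact mul_pos (by linarith) (by positivity)

attribute [local irreducible] HH Ts Th BP

lemma ev_pos : ∀ᶠ σ in 𝓝 (0 : ℝ), ∀ z, 0 ≤ z → 0 ≤ Th z (xs σ) σ := by
  have hopen : IsOpen {p : ℝ × ℝ × ℝ | 0 < HH p.1 p.2.1 p.2.2} :=
    isOpen_lt continuous_const continuous_HH
  obtain ⟨u, v, _, hv, hsu, htv, huv⟩ := generalized_tube_lemma
    (isCompact_Icc (a := (0 : ℝ)) (b := 1)) (isCompact_singleton (x := ((1 : ℝ), (0 : ℝ))))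
    hopen (by
      rintro ⟨w, q⟩ ⟨hw, hq⟩
      rw [mem_singleton_iff] at hq
      simp only at hq
      subst hq
      exact HH_pos hw.1)
  have hopen' : IsOpen {p : ℝ × ℝ × ℝ | 0 < Th p.1 p.2.1 p.2.2} :=
    isOpen_lt continuous_const continuous_Th
  obtain ⟨u', v', _, hv', hsu', htv', huv'⟩ := generalized_tube_lemma
    (isCompact_Icc (a := (0 : ℝ)) (b := 1)) (isCompact_singleton (x := ((1 : ℝ), (0 : ℝ))))
    hopen' (by
      rintro ⟨w, q⟩ ⟨hw, hq⟩
      rw [mem_singleton_iff] at hq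
      simp only at hq
      subst hq
      have := Th_pos hw.1
      show 0 < Th w 1 0
      linarith)
  have hc : Continuous (fun σ : ℝ => (xs σ, σ)) := by
    have := continuous_xs
    fun_prop
  have hmem : (xs 0, (0 : ℝ)) ∈ v := by
    rw [xs_zero]; exact htv (mem_singleton _)
  have hmem' : (xs 0, (0 : ℝ)) ∈ v' := by
    rw [xs_zero]; exact htv' (mem_singleton _)
  have h1 := hc.continuousAt.preimage_mem_nhds (hv.mem_nhds hmem)
  have h2 := hc.continuousAt.preimage_mem_nhds (hv'.mem_nhds hmem')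
  filter_upwards [h1, h2] with σ hσ hσ' z hz
  rcases le_total z 1 with h | h
  · have : 0 < Th z (xs σ) σ := huv' (mk_mem_prod (hsu' ⟨hz, h⟩) hσ')
    exact this.le
  · have hz0 : 0 < z := by linarith
    have hw : 1 / z ∈ Icc (0 : ℝ) 1 := by
      constructor
      · positivity
      · rw [div_le_one hz0]; exact h
    have h1 : 0 < HH (1 / z) (xs σ) σ := huv (mk_mem_prod (hsu hw) hσ)
    have h2 := Th_HH (w := 1 / z) (by positivity) (xs σ) σ
    rw [one_div_one_div] at h2
    rw [← h2] at h1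
    have h3 : 0 < (1 / z) ^ 14 := by positivity
    by_contra hcon
    push Not at hcon
    have := mul_neg_of_neg_of_pos hcon h3
    linarith

/-- the gain -/
noncomputable def gain (σ : ℝ) : ℝ :=
  6 * (1 / 2 + σ / 2 - Real.sqrt (xs σ - σ) * Ts (σ / 2) (xs σ) σ / 2) +
    Real.sqrt ((xs σ + 1) / 2) * BP ((xs σ + 1) / 2) / 6

lemma continuous_BP : Continuous BP := by
  unfold BP; fun_prop

lemma continuous_gain : ContinuousAt gain 0 := by
  have h1 := continuous_Ts
  have h2 := continuous_xs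
  have h3 : Continuous (fun σ : ℝ => Ts (σ / 2) (xs σ) σ) :=
    h1.comp (by fun_prop : Continuous (fun σ : ℝ => (σ / 2, xs σ, σ)))
  have h4 : Continuous (fun σ : ℝ => BP ((xs σ + 1) / 2)) := by
    have := continuous_BP
    exact this.comp (by fun_prop : Continuous (fun σ : ℝ => (xs σ + 1) / 2))
  have h5 : Continuous (fun σ : ℝ => Real.sqrt ((xs σ + 1) / 2)) := by fun_prop
  have h6 : Continuous (fun σ : ℝ => Real.sqrt (xs σ - σ)) := by fun_prop
  unfold gain
  have : Continuous (fun σ : ℝ => 6 * (1 / 2 + σ / 2 - Real.sqrt (xs σ - σ) *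
      Ts (σ / 2) (xs σ) σ / 2) + Real.sqrt ((xs σ + 1) / 2) * BP ((xs σ + 1) / 2) / 6) := by
    fun_prop
  exact this.continuousAt

lemma gain_zero : gain 0 < 2767 / 2500 := by
  unfold gain
  rw [xs_zero, zero_div, Ts_zero, sub_zero, Real.sqrt_one]
  have e : ((1 : ℝ) + 1) / 2 = 1 := by norm_num
  rw [e, BP_one, Real.sqrt_one]
  norm_num

theorem exists_consts : ∃ δ : ℝ, 0 < δ ∧ ∀ σ : ℝ, 0 < σ → σ < δ →
    σ ≤ 1 ∧ (xs σ + 1) / 2 ≤ 40001 / 40000 ∧ (∀ z, 0 ≤ z → 0 ≤ Th z (xs σ) σ) ∧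
      gain σ ≤ 2767 / 2500 := by
  have h1 : ∀ᶠ σ in 𝓝 (0 : ℝ), (xs σ + 1) / 2 < 40001 / 40000 := by
    have hc : Continuous (fun σ : ℝ => (xs σ + 1) / 2) := by
      have := continuous_xs
      fun_prop
    have h0 : (xs 0 + 1) / 2 < 40001 / 40000 := by rw [xs_zero]; norm_num
    exact hc.continuousAt.eventually_lt_const h0
  have h2 : ∀ᶠ σ in 𝓝 (0 : ℝ), gain σ < 2767 / 2500 :=
    continuous_gain.eventually_lt_const gain_zero
  have h3 := (h1.and h2).and ev_pos
  rw [Metric.eventually_nhds_iff] at h3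
  obtain ⟨ε, hε, h⟩ := h3
  refine ⟨min ε 1, by positivity, fun σ h0 hσ => ?_⟩
  have hd : dist σ 0 < ε := by
    rw [Real.dist_eq, sub_zero, abs_of_pos h0]
    exact lt_of_lt_of_le hσ (min_le_left _ _)
  obtain ⟨⟨a1, a2⟩, a3⟩ := h hd
  exact ⟨(hσ.le.trans (min_le_right _ _)), a1.le, a3, a2.le⟩

end Pool.Agent.Y300.CE.Asym
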