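import Mathlib
import Pool.Agent.Y300.CE.Cert0
import Pool.Agent.Y300.CE.Cert1
import Pool.Agent.Y300.CE.Cert2
import Pool.Agent.Y300.CE.Cert3
import Pool.Agent.Y300.CE.Cert4

/-! Project CE (helper300): the polynomial inequality for `BP`. -/

namespace Pool.Agent.Y300.CE.Cert

open Pool.Agent.Y300.CE.Test

theorem key {v : ℝ} (h0 : 0 ≤ v) (h1 : v ≤ 40001 / 40000) :
    BP v ^ 2 * (1 - 39999 / 40000 * v) ≤ 1 := by
  rcases le_total v (19 / 64) with g1 | g1
  · exact key0 h0 g1
  rcases le_total v (1 / 2) with g2 | g2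
  · exact key1 g1 g2
  rcases le_total v (45 / 64) with g3 | g3
  · exact key2 g2 g3
  rcases le_total v (51 / 64) with g4 | g4
  · exact key3 g3 g4
  exact key4 g4 (by linarith)

end Pool.Agent.Y300.CE.Cert
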