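import Mathlib
import Pool.Agent.Helper858.Core
import Pool.Agent.Y300.CE.Asym
import Pool.Agent.Y300.CE.Cert

/-! Project CE (helper300): the lower bound for the Coulomb energy. -/

namespace Pool.Agent.Y300.CE.Core

open Pool.Agent.Helper858.Leg Pool.Agent.Helper858.Gen Pool.Agent.Helper858.Der
  Pool.Agent.Y300.CE.Test Pool.Agent.Y300.CE.Asym Pool.Agent.Y300.CE.Cert Set Filter Topology
open Pool.Agent.Helper858.Test (th D_th)
open Pool.Agent.Helper858.Asym (xs continuous_xs xs_zero xs_gt sg_xs)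
open Pool.Agent.Helper858.Core (gr gr_self abs_gr_le A A_nonneg A_le_one abs_A_le
  A_zero avg_tsum EE_le_one)

lemma fT_le {s x : ℝ} (hx : 1 < x) (hx2 : (x + 1) / 2 ≤ 40001 / 40000) (hs : s < 1) :
    fT s x ≤ (Real.sqrt (2 * (1 - s)))⁻¹ := by
  rw [fT_eq hx hs.le]
  have hp : 0 < 2 * (x - s) := by linarith
  have hq : 0 < 2 * (1 - s) := by linarith
  have hσ := sg_sq hx.le
  set v := sg x ^ 2 / (2 * (x - s)) with hv
  have hv0 : 0 ≤ v := by positivity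
  have hv1 : v ≤ (x + 1) / 2 := by
    rw [hv, div_le_iff₀ hp, hσ]
    nlinarith
  have hk := key hv0 (hv1.trans hx2)
  have hx1 : 0 < x + 1 := by linarith
  have h2x : (39999 / 40000 : ℝ) ≤ 2 / (x + 1) := by
    rw [le_div_iff₀ hx1]
    linarith
  have hqp : 2 * (1 - s) = 2 * (x - s) * (1 - 2 / (x + 1) * v) := by
    have h3 : 2 * (x - s) * v = (x - 1) * (x + 1) := by
      rw [hv, mul_div_cancel₀ _ hp.ne', hσ]; ring
    have h4 : 2 * (x - s) * (1 - 2 / (x + 1) * v) = 2 * (x - s) - 2 / (x + 1) * (2 * (x - s) * v) := by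
      ring
    rw [h4, h3]
    field_simp
    ring
  have h1 : BP v ^ 2 * (2 * (1 - s)) ≤ 2 * (x - s) := by
    have h5 : BP v ^ 2 * (1 - 2 / (x + 1) * v) ≤ 1 := by
      refine le_trans ?_ hk
      apply mul_le_mul_of_nonneg_left _ (sq_nonneg _)
      have := mul_le_mul_of_nonneg_right h2x hv0
      linarith
    calc BP v ^ 2 * (2 * (1 - s)) = (2 * (x - s)) * (BP v ^ 2 * (1 - 2 / (x + 1) * v)) := by
          rw [hqp]; ring
      _ ≤ (2 * (x - s)) * 1 := by gcongr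
      _ = _ := mul_one _
  have hsp : 0 < Real.sqrt (2 * (x - s)) := Real.sqrt_pos.mpr hp
  have hsq : 0 < Real.sqrt (2 * (1 - s)) := Real.sqrt_pos.mpr hq
  have h6 : BP v * Real.sqrt (2 * (1 - s)) ≤ Real.sqrt (2 * (x - s)) := by
    apply Real.le_sqrt_of_sq_le
    rw [mul_pow, Real.sq_sqrt hq.le]
    exact h1
  rw [inv_mul_le_iff₀ hsp, ← div_eq_mul_inv, le_div_iff₀ hsq]
  exact h6

section
variable {ι : Type*} [Fintype ι] [DecidableEq ι] (y : ι → Fin 3 → ℝ)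

theorem energy_lower [Nonempty ι] (hy : ∀ j, ∑ m, y j m ^ 2 = 1)
    (hne : ∀ i j, i ≠ j → gr y i j < 1) {x : ℝ} (hx : 1 < x)
    (hx2 : (x + 1) / 2 ≤ 40001 / 40000) (hpos : ∀ z, 0 ≤ z → 0 ≤ Th z x (sg x)) :
    (Fintype.card ι : ℝ) ^ 2 * cf 0 x - (Fintype.card ι : ℝ) * fT 1 x ≤
      ∑ i, ∑ j, if i = j then 0 else (Real.sqrt (2 * (1 - gr y i j)))⁻¹ := by
  have hN : (0 : ℝ) < Fintype.card ι := by exact_mod_cast Fintype.card_pos
  have hsg := sg_pos hx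
  have hcf : ∀ k, 0 ≤ cf k x := fun k =>
    mul_nonneg (EE_pos k hx.le).le (hpos _ (by positivity))
  have hS := summable_cf (abs_A_le y hy) hx
  have h0 : cf 0 x ≤ ∑' k, A y k * cf k x := by
    have := hS.le_tsum 0 (fun j _ => mul_nonneg (A_nonneg y hy j) (hcf j))
    rwa [A_zero, one_mul] at this
  rw [← avg_tsum y (fun k => cf k x)
    (fun i j => summable_cf (abs_leg_le_one _ (abs_gr_le y hy i j)) hx)] at h0
  have h1 : ∀ i j, ∑' k, leg (gr y i j) k * cf k x = fT (gr y i j) x :=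
    fun i j => (fT_tsum hx (abs_gr_le y hy i j)).symm
  simp only [h1] at h0
  rw [le_div_iff₀ (by positivity)] at h0
  have h2 : ∀ i j, fT (gr y i j) x ≤ (if i = j then fT 1 x else 0) +
      (if i = j then 0 else (Real.sqrt (2 * (1 - gr y i j)))⁻¹) := by
    intro i j
    by_cases hij : i = j
    · subst hij
      simp [gr_self y hy]
    · simp only [hij, if_false, zero_add]
      exact fT_le hx hx2 (hne i j hij)
  have h3 : ∑ i, ∑ j, fT (gr y i j) x ≤ ∑ i : ι, ∑ j : ι, ((if i = j then fT 1 x else 0) +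
      (if i = j then 0 else (Real.sqrt (2 * (1 - gr y i j)))⁻¹)) :=
    Finset.sum_le_sum fun i _ => Finset.sum_le_sum fun j _ => h2 i j
  simp only [Finset.sum_add_distrib] at h3
  have h4 : ∑ i : ι, ∑ j : ι, (if i = j then fT 1 x else 0) = (Fintype.card ι : ℝ) * fT 1 x := by
    simp
  rw [h4] at h3
  linarith

end

/-- the core estimate -/
theorem core : ∃ N₀ : ℕ, ∀ N : ℕ, N₀ ≤ N → 0 < N ∧ ∀ y : Fin N → Fin 3 → ℝ,
    (∀ j, ∑ m, y j m ^ 2 = 1) → (∀ i j, i ≠ j → gr y i j < 1) →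
      (N : ℝ) ^ 2 - 2767 / 2500 * ((N : ℝ) * Real.sqrt N) ≤
        ∑ i, ∑ j, if i = j then 0 else (Real.sqrt (2 * (1 - gr y i j)))⁻¹ := by
  obtain ⟨δ, hδ, h⟩ := exists_consts
  obtain ⟨T, hT⟩ := exists_nat_gt (6 / δ)
  refine ⟨max 1 (T ^ 2), fun N hN => ?_⟩
  have hN1 : 1 ≤ N := (le_max_left _ _).trans hN
  refine ⟨hN1, fun y hy hne => ?_⟩
  have hNT : T ^ 2 ≤ N := (le_max_right _ _).trans hN
  have : Nonempty (Fin N) := ⟨⟨0, hN1⟩⟩
  have hNpos : (0 : ℝ) < N := by exact_mod_cast hN1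
  have hsqT : (T : ℝ) ≤ Real.sqrt N := by
    apply Real.le_sqrt_of_sq_le
    exact_mod_cast hNT
  have hr : 0 < Real.sqrt N := Real.sqrt_pos.mpr hNpos
  have hrr : Real.sqrt N ^ 2 = N := Real.sq_sqrt hNpos.le
  set r := Real.sqrt N with hrdef
  set σ : ℝ := 6 / r with hσdef
  have hσ : 0 < σ := by positivity
  have hσr : σ * r = 6 := by rw [hσdef, div_mul_cancel₀ _ hr.ne']
  have hσδ : σ < δ := by
    rw [hσdef, div_lt_iff₀ hr]
    rw [div_lt_iff₀ hδ] at hT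
    nlinarith
  obtain ⟨a1, a2, a3, a4⟩ := h σ hσ hσδ
  have hx := xs_gt hσ
  have hs := sg_xs hσ.le
  have hmain := energy_lower y hy hne hx a2 (by rw [hs]; exact a3)
  rw [Fintype.card_fin] at hmain
  refine le_trans ?_ hmain
  -- the zeroth coefficient
  have hcf : cf 0 (xs σ) = Real.sqrt (xs σ - σ) * (1 + σ / 2 * Ts (σ / 2) (xs σ) σ) := by
    unfold cf Th EE rh
    rw [hs]
    have e : (((0 : ℕ) : ℝ) + 1 / 2) * σ = σ / 2 := by push_cast; ring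
    rw [e, pow_zero, one_mul]
  have hone : fT 1 (xs σ) * σ = Real.sqrt ((xs σ + 1) / 2) * BP ((xs σ + 1) / 2) := by
    have := fT_one hx
    rwa [hs] at this
  have hR : 1 - σ / 2 - σ ^ 2 / 2 ≤ Real.sqrt (xs σ - σ) := by
    apply Real.le_sqrt_of_sq_le
    nlinarith [pow_pos hσ 2, pow_pos hσ 3, pow_pos hσ 4, mul_nonneg (pow_pos hσ 2).le (sub_nonneg.mpr a1), mul_nonneg (pow_pos hσ 3).le (sub_nonneg.mpr a1)]
  unfold gain at a4
  set R := Real.sqrt (xs σ - σ) with hRdef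
  set t := Ts (σ / 2) (xs σ) σ with htdef
  set b := Real.sqrt ((xs σ + 1) / 2) * BP ((xs σ + 1) / 2) with hbdef
  have hc0 : 1 - cf 0 (xs σ) ≤ σ * (1 / 2 + σ / 2 - R * t / 2) := by
    rw [hcf]
    nlinarith
  have hf1 : (N : ℝ) * fT 1 (xs σ) = r ^ 3 * (b / 6) := by
    rw [← hone, ← hrr]
    have : r ^ 3 * (fT 1 (xs σ) * σ / 6) = r ^ 2 * fT 1 (xs σ) * (σ * r / 6) := by ring
    rw [this, hσr]; ring
  have hf2 : (N : ℝ) ^ 2 * (1 - cf 0 (xs σ)) ≤ r ^ 3 * (6 * (1 / 2 + σ / 2 - R * t / 2)) := by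
    calc (N : ℝ) ^ 2 * (1 - cf 0 (xs σ)) ≤ (N : ℝ) ^ 2 * (σ * (1 / 2 + σ / 2 - R * t / 2)) := by
          gcongr
      _ = r ^ 3 * ((σ * r) * (1 / 2 + σ / 2 - R * t / 2)) := by rw [← hrr]; ring
      _ = _ := by rw [hσr]
  have hf3 : r ^ 3 * (6 * (1 / 2 + σ / 2 - R * t / 2) + b / 6) ≤ r ^ 3 * (2767 / 2500) := by
    gcongr
  have hf4 : (N : ℝ) * r = r ^ 3 := by rw [← hrr]; ring
  rw [hf4]
  have hf5 : (N : ℝ) ^ 2 * (1 - cf 0 (xs σ)) = (N : ℝ) ^ 2 - (N : ℝ) ^ 2 * cf 0 (xs σ) := by ring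
  have hf6 : r ^ 3 * (6 * (1 / 2 + σ / 2 - R * t / 2) + b / 6) =
      r ^ 3 * (6 * (1 / 2 + σ / 2 - R * t / 2)) + r ^ 3 * (b / 6) := by ring
  linarith

end Pool.Agent.Y300.CE.Core
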