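import Mathlib
import Pool.Agent.Helper858.Test

/-! Project CE (helper300): the test function for the Coulomb energy. -/

namespace Pool.Agent.Y300.CE.Test

open Pool.Agent.Helper858.Leg Pool.Agent.Helper858.Gen Pool.Agent.Helper858.Der Set Filter Topology
open Pool.Agent.Helper858.Test (th D_th)

/-- `100000` times the coefficients of the polynomial `BP` -/
def bt : ℕ → ℤ
  | 0 => 49990
  | 1 => 38298
  | 2 => -32452
  | 3 => 1945971
  | 4 => -29099471
  | 5 => 254867671
  | 6 => -1387238209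
  | 7 => 4909474953
  | 8 => -11555201408
  | 9 => 18179262530
  | 10 => -18847162090
  | 11 => 12340286629
  | 12 => -4621056652
  | 13 => 754096047
  | _ => 0

/-- odd double factorials, as numerals -/
def dfac' : ℕ → ℕ
  | 0 => 1
  | 1 => 3
  | 2 => 15
  | 3 => 105
  | 4 => 945
  | 5 => 10395
  | 6 => 135135
  | 7 => 2027025
  | 8 => 34459425
  | 9 => 654729075
  | 10 => 13749310575
  | 11 => 316234143225
  | 12 => 7905853580625
  | 13 => 213458046676875
  | _ => 1

/-- coefficients of the test function -/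
noncomputable def bq (n : ℕ) : ℝ := (bt n : ℝ) / (100000 * (dfac' n : ℝ))

/-- the main part of the symbol -/
noncomputable def Ts (z x σ : ℝ) : ℝ := ∑ n ∈ Finset.range 14, bq n * th z x σ n

/-- the symbol of the test function -/
noncomputable def Th (z x σ : ℝ) : ℝ := 1 + z * Ts z x σ

/-- the test function -/
noncomputable def fT (s x : ℝ) : ℝ :=
  GG s 0 x + ∑ n ∈ Finset.range 14, bq n * (sg x ^ (2 * n + 2) * GG s (n + 1) x)

/-- the polynomial `B` -/
noncomputable def BP (v : ℝ) : ℝ := 1 + (49990 / 100000) * v ^ 1 + (38298 / 100000) * v ^ 2 + (-32452 / 100000) * v ^ 3 + (1945971 / 100000) * v ^ 4 + (-29099471 / 100000) * v ^ 5 + (254867671 / 100000) * v ^ 6 + (-1387238209 / 100000) * v ^ 7 + (4909474953 / 100000) * v ^ 8 + (-11555201408 / 100000) * v ^ 9 + (18179262530 / 100000) * v ^ 10 + (-18847162090 / 100000) * v ^ 11 + (12340286629 / 100000) * v ^ 12 + (-4621056652 / 100000) * v ^ 13 + (754096047 / 100000) * v ^ 14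

lemma BP_eq (v : ℝ) : BP v = 1 + ∑ n ∈ Finset.range 14, bq n * (dfac (n + 1) : ℝ) * v ^ (n + 1) := by
  simp only [Finset.sum_range_succ, Finset.sum_range_zero, bq, bt, dfac', dfac, BP]
  push_cast
  ring

lemma fT_eq {s x : ℝ} (hx : 1 < x) (hs : s ≤ 1) :
    fT s x = (Real.sqrt (2 * (x - s)))⁻¹ * BP (sg x ^ 2 / (2 * (x - s))) := by
  have hp : 0 < 2 * (x - s) := by linarith
  have hG : ∀ m : ℕ, GG s m x = (Real.sqrt (2 * (x - s)))⁻¹ * ((dfac m : ℝ) * (1 / (2 * (x - s))) ^ m) := by
    intro m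
    unfold GG
    have e : -((m : ℝ) + 1 / 2) = -(m : ℝ) + -(1 / 2 : ℝ) := by ring
    rw [e, Real.rpow_add hp, Real.rpow_neg hp.le, Real.rpow_neg hp.le, Real.rpow_natCast,
      ← Real.sqrt_eq_rpow, one_div, inv_pow]
    ring
  unfold fT
  simp only [hG]
  rw [BP_eq, mul_add, Finset.mul_sum]
  congr 1
  · simp [dfac]
  · refine Finset.sum_congr rfl fun n _ => ?_
    have e : sg x ^ (2 * n + 2) = (sg x ^ 2) ^ (n + 1) := by rw [← pow_mul]; congr 1
    rw [e, div_pow, div_pow, one_pow]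
    ring

lemma fT_one {x : ℝ} (hx : 1 < x) :
    fT 1 x * sg x = Real.sqrt ((x + 1) / 2) * BP ((x + 1) / 2) := by
  rw [fT_eq hx le_rfl]
  have h1 : sg x ^ 2 / (2 * (x - 1)) = (x + 1) / 2 := by
    rw [sg_sq hx.le, div_eq_div_iff (by linarith) (by norm_num)]
    ring
  have h2 : sg x = Real.sqrt ((x + 1) / 2) * Real.sqrt (2 * (x - 1)) := by
    rw [← Real.sqrt_mul (by linarith)]
    unfold sg
    congr 1
    ring
  have h3 : Real.sqrt (2 * (x - 1)) ≠ 0 := (Real.sqrt_pos.mpr (by linarith)).ne'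
  rw [h1, h2]
  field_simp

/-- the Legendre coefficients of the test function -/
noncomputable def cf (k : ℕ) (x : ℝ) : ℝ := EE k x * Th (((k : ℝ) + 1 / 2) * sg x) x (sg x)

lemma cf_eq (k : ℕ) {x : ℝ} (hx : 1 < x) :
    cf k x = D k x 0 + ∑ n ∈ Finset.range 14, bq n * (sg x ^ (2 * n + 2) * D k x (n + 1)) := by
  unfold cf Th Ts
  rw [mul_add, mul_one, ← mul_assoc, Finset.mul_sum]
  congr 1
  refine Finset.sum_congr rfl fun n _ => ?_
  have h := D_th k hx n
  have e : sg x ^ (2 * n + 2) * D k x (n + 1) = sg x * (sg x ^ (2 * n + 1) * D k x (n + 1)) := by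
    ring
  rw [e, h]; ring

lemma summable_cf {a : ℕ → ℝ} (ha : ∀ k, |a k| ≤ 1) {x : ℝ} (hx : 1 < x) :
    Summable (fun k => a k * cf k x) := by
  have : (fun k => a k * cf k x) = fun k => a k * D k x 0 + ∑ n ∈ Finset.range 14,
      (bq n * sg x ^ (2 * n + 2)) * (a k * D k x (n + 1)) := by
    funext k
    rw [cf_eq k hx, mul_add, Finset.mul_sum]
    congr 1
    refine Finset.sum_congr rfl fun n _ => by ring
  rw [this]
  exact (summable_D ha hx 0).add
    (summable_sum fun n _ => (summable_D ha hx (n + 1)).mul_left _)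

lemma fT_tsum {s x : ℝ} (hx : 1 < x) (hs : |s| ≤ 1) : fT s x = ∑' k, leg s k * cf k x := by
  have : (fun k => leg s k * cf k x) = fun k => leg s k * D k x 0 + ∑ n ∈ Finset.range 14,
      (bq n * sg x ^ (2 * n + 2)) * (leg s k * D k x (n + 1)) := by
    funext k
    rw [cf_eq k hx, mul_add, Finset.mul_sum]
    congr 1
    refine Finset.sum_congr rfl fun n _ => by ring
  have hS : ∀ m, Summable (fun k => leg s k * D k x m) := fun m =>
    summable_D (abs_leg_le_one s hs) hx m
  rw [this, Summable.tsum_add (hS 0) (summable_sum fun n _ => (hS (n + 1)).mul_left _),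
    Summable.tsum_finsetSum (fun n _ => (hS (n + 1)).mul_left _), ← GG_eq_tsum hs 0 x hx]
  unfold fT
  congr 1
  refine Finset.sum_congr rfl fun n _ => ?_
  rw [tsum_mul_left, GG_eq_tsum hs (n + 1) x hx]
  ring

end Pool.Agent.Y300.CE.Test
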